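import Pool.Agent.H813.CL.Enough

/-!
# Every `ω`-stable continuous theory has enough definable sets

Let `T` be a complete `ω`-stable continuous theory and `M` a monster model of `T` (all we use is that
`M` is `κ`-saturated for an uncountable `κ`; the small sets are those with fewer than `κ` elements).
Complete types over a small set `A` are determined by the `A`-definable sets they belong to.

Proof. Let `p ≠ q` be types over `A`, and `φ` an `A`-formula with `φ(p) < φ(q)`; `φ` uses only
countably (finitely) many parameters, so let `A` be countable. For `t` between `φ(p)` and `φ(q)` let
`W_t = {φ < t}`. Call `t` bad if the closure of `W_t` in the logic topology over `A` contains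
a type `k_t` whose distance from `W_t` is positive. If `s < t` are bad, and the distances of `k_s` from
`W_s` and of `k_t` from `W_t` are at least `ε`, then `k_s` lies in `{φ ≤ s} ⊆ W_t`, so
`d(k_s, k_t) ≥ ε`. Since `S_n(A)` is separable, only countably many `t` are bad. If `t` is not bad
then the distance from `W_t` is a definable predicate over `A`: it is the decreasing limit of the
formulas `ψ_k(x) = inf_y max (2(k+1)(φ(y) - t + 1/(k+1)), d(x,y))` and by saturation the limit is
uniform (this is where it is used that `t` is not bad). So the metric closure of `W_t` is an
`A`-definable set, which contains `p` and not `q`.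
-/

set_option autoImplicit false

namespace Pool.Agent.Results.MP_fad8cd_lc.OmegaStableEnough

open Pool.Agent.H813.CL

universe u

/-- Every complete `ω`-stable continuous theory has enough definable sets: if `M` is a monster model of
a complete theory (it suffices that `M` is `κ`-saturated and `κ` is uncountable), and `S_1(A)` is
separable for the metric on types for every countable `A ⊆ M`, then for every `A ⊆ M` with fewer than
`κ` elements, every `n` and every `p ∈ S_n(A)`, the type `p` is the only type in `S_n(A)` that belongs
to every `A`-definable set that contains `p`. (The signature may be uncountable.) -/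
theorem result (L : Sig) (M : Str.{u} L) (κ : Cardinal.{u}) (hκ : Cardinal.aleph0 < κ)
    (hM : M.Saturated κ) (hω : M.OmegaStable) : M.EnoughDefinableSets κ := by
  intro A hA n p hp q _ h
  by_contra hne
  obtain ⟨D, h1, ⟨a, h2, h3⟩, h4⟩ := enough hM hκ hω A hA n p q hp (Ne.symm hne)
  obtain ⟨b, h5, h6⟩ := h D h1 ⟨a, h2, h3⟩
  exact h4 b h5 h6

end Pool.Agent.Results.MP_fad8cd_lc.OmegaStableEnough
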